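import Pool.Agent.Q4.SPC.Stm
import Pool.Agent.Q4.GLC.Den

/-!
# Project SPC (helper4), job SF: the double cosets at `v` consist of finitely many cosets
-/

set_option autoImplicit false

open IsDedekindDomain NumberField Matrix Q4.GLC Q4.SPC

noncomputable section

namespace Q158.SPC

variable {F : Type} [Field F] [NumberField F]

theorem natCast_ne (v : Pl F) {M : ℕ} (hM : 1 ≤ M) : (M : v.adicCompletion F) ≠ 0 := by
  have h : ((M : F) : v.adicCompletion F) ≠ 0 := by
    intro h
    have h2 : (algebraMap F (v.adicCompletion F)) (M : F) = 0 := h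
    rw [map_eq_zero] at h2
    have : (M : F) ≠ 0 := by exact_mod_cast (Nat.one_le_iff_ne_zero.1 hM)
    exact this h2
  have h3 : ((M : F) : v.adicCompletion F) = (M : v.adicCompletion F) :=
    map_natCast (algebraMap F (v.adicCompletion F)) M
  rwa [h3] at h

theorem approx (v : Pl F) {M : ℕ} (hM : 1 ≤ M) (x : v.adicCompletion F) (hx : Valued.v x ≤ 1) :
    ∃ a : 𝓞 F, Valued.v (((algebraMap (𝓞 F) F a : F) : v.adicCompletion F) - x) ≤
      Valued.v (M : v.adicCompletion F) := by
  have hM0 := natCast_ne v hM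
  have hv0 : Valued.v (M : v.adicCompletion F) ≠ 0 := by
    rw [Ne, Valuation.zero_iff]; exact hM0
  have hopen : IsOpen {y : v.adicCompletion F | Valued.v ((y - x) * (M : v.adicCompletion F)⁻¹) < 1} := by
    have h1 := Valued.isOpen_ball (v.adicCompletion F) (1 : MonoidWithZeroHom.ValueGroup₀
      (.ofClass (Valued.v : Valuation (v.adicCompletion F) _)))
    have h2 : Continuous (fun y : v.adicCompletion F => (y - x) * (M : v.adicCompletion F)⁻¹) := by
      fun_prop
    have h3 := h1.preimage h2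
    convert h3 using 1
    ext y
    change Valued.v ((y - x) * (M : v.adicCompletion F)⁻¹) < 1 ↔
      Valued.v.restrict ((y - x) * (M : v.adicCompletion F)⁻¹) < 1
    rw [Valuation.restrict_lt_one_iff]
  obtain ⟨k, hk⟩ := (HeightOneSpectrum.denseRange_algebraMap F v).exists_mem_open hopen
    ⟨x, by simp⟩
  have hk1 : Valued.v ((k : v.adicCompletion F) - x) < Valued.v (M : v.adicCompletion F) := by
    change Valued.v (((k : v.adicCompletion F) - x) * (M : v.adicCompletion F)⁻¹) < 1 at hk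
    have h2 : ((k : v.adicCompletion F) - x) =
        (((k : v.adicCompletion F) - x) * (M : v.adicCompletion F)⁻¹) *
          (M : v.adicCompletion F) := by
      field_simp
    rw [h2, map_mul]
    calc _ < 1 * Valued.v (M : v.adicCompletion F) :=
          mul_lt_mul_of_pos_right hk (zero_lt_iff.2 hv0)
      _ = _ := one_mul _
  have hk2 : v.valuation F k ≤ 1 := by
    rw [← HeightOneSpectrum.valuedAdicCompletion_eq_valuation']
    have h1 : (k : v.adicCompletion F) = ((k : v.adicCompletion F) - x) + x := by ring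
    rw [h1]
    exact (Valued.v.map_add _ _).trans (max_le (hk1.le.trans (val_nat_le M v)) hx)
  obtain ⟨a, ha⟩ := v.exists_valuation_sub_lt_of_integer hk2
    (Units.mk0 (Valued.v (M : v.adicCompletion F)) hv0)
  rw [Units.val_mk0] at ha
  refine ⟨a, ?_⟩
  have h2 : ((algebraMap (𝓞 F) F a : F) : v.adicCompletion F) - x =
      ((algebraMap (𝓞 F) F a - k : F) : v.adicCompletion F) + ((k : v.adicCompletion F) - x) := by
    have h3 : ((algebraMap (𝓞 F) F a - k : F) : v.adicCompletion F) =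
        ((algebraMap (𝓞 F) F a : F) : v.adicCompletion F) - (k : v.adicCompletion F) :=
      map_sub (algebraMap F (v.adicCompletion F)) _ _
    rw [h3]; ring
  rw [h2]
  refine (Valued.v.map_add _ _).trans (max_le ?_ hk1.le)
  rw [HeightOneSpectrum.valuedAdicCompletion_eq_valuation']
  exact ha.le

/-- the residue modulo `M` -/
def rs (v : Pl F) {M : ℕ} (hM : 1 ≤ M) (x : v.adicCompletion F) (hx : Valued.v x ≤ 1) :
    𝓞 F ⧸ Ideal.span {(M : 𝓞 F)} := Ideal.Quotient.mk _ (approx v hM x hx).choose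

theorem rs_eq (v : Pl F) {M : ℕ} (hM : 1 ≤ M) (x y : v.adicCompletion F)
    (hx : Valued.v x ≤ 1) (hy : Valued.v y ≤ 1) (h : rs v hM x hx = rs v hM y hy) :
    Valued.v (y - x) ≤ Valued.v (M : v.adicCompletion F) := by
  have h1 := (approx v hM x hx).choose_spec
  have h2 := (approx v hM y hy).choose_spec
  unfold rs at h
  rw [Ideal.Quotient.eq, Ideal.mem_span_singleton'] at h
  obtain ⟨c, hc⟩ := h
  set a := (approx v hM x hx).choose
  set b := (approx v hM y hy).choose
  have h3 : Valued.v (((algebraMap (𝓞 F) F (a - b) : F) : v.adicCompletion F)) ≤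
      Valued.v (M : v.adicCompletion F) := by
    rw [← hc, map_mul, map_natCast]
    have e : ((algebraMap (𝓞 F) F c * (M : F) : F) : v.adicCompletion F) =
        ((algebraMap (𝓞 F) F c : F) : v.adicCompletion F) * (M : v.adicCompletion F) := by
      have e1 := map_mul (algebraMap F (v.adicCompletion F)) (algebraMap (𝓞 F) F c) (M : F)
      rw [map_natCast] at e1
      exact e1
    rw [e, map_mul]
    have h4 : Valued.v ((algebraMap (𝓞 F) F c : F) : v.adicCompletion F) ≤ 1 := by
      rw [HeightOneSpectrum.valuedAdicCompletion_eq_valuation']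
      exact HeightOneSpectrum.valuation_le_one v c
    calc _ ≤ 1 * Valued.v (M : v.adicCompletion F) := mul_le_mul_left h4 _
      _ = _ := one_mul _
  have e : y - x = (((algebraMap (𝓞 F) F a : F) : v.adicCompletion F) - x) -
      (((algebraMap (𝓞 F) F b : F) : v.adicCompletion F) - y) -
      ((algebraMap (𝓞 F) F (a - b) : F) : v.adicCompletion F) := by
    have e1 : ((algebraMap (𝓞 F) F (a - b) : F) : v.adicCompletion F) =
        ((algebraMap (𝓞 F) F a : F) : v.adicCompletion F) -
        ((algebraMap (𝓞 F) F b : F) : v.adicCompletion F) := by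
      rw [map_sub]
      exact map_sub (algebraMap F (v.adicCompletion F)) _ _
    rw [e1]; ring
  rw [e]
  exact (Valued.v.map_sub _ _).trans (max_le ((Valued.v.map_sub _ _).trans (max_le h1 h2)) h3)

variable {n : ℕ}

/-- denominators -/
theorem den : SI := by
  intro F _ _ n g N hN
  classical
  choose d hd1 hd2 using fun a : Af F => ade_den a
  let D : ℕ := (∏ i : Fin n ⊕ Fin n, ∏ j : Fin n ⊕ Fin n, d (g.1 i j)) *
    (∏ i : Fin n ⊕ Fin n, ∏ j : Fin n ⊕ Fin n, d (g⁻¹.1 i j))
  have hD : 1 ≤ D := Nat.succ_le_of_lt (Nat.mul_pos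
    (Finset.prod_pos fun i _ => Finset.prod_pos fun j _ => hd1 _)
    (Finset.prod_pos fun i _ => Finset.prod_pos fun j _ => hd1 _))
  have hmulle : ∀ (a b : ℕ) (x : Af F) (v : Pl F), Valued.v ((a : Af F) v * x v) ≤ 1 →
      a ∣ b → Valued.v ((b : Af F) v * x v) ≤ 1 := by
    rintro a b x v h ⟨e, rfl⟩
    have h1 : Valued.v (((a * e : ℕ) : Af F) v * x v) =
        Valued.v ((e : Af F) v) * Valued.v ((a : Af F) v * x v) := by
      rw [natCast_app, natCast_app, natCast_app, Nat.cast_mul, ← map_mul]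
      congr 1
      ring
    rw [h1]
    calc _ ≤ (1 : WithZero (Multiplicative ℤ)) * 1 := mul_le_mul' (val_nat_le_one _ v) h
      _ = 1 := one_mul 1
  have hg1 : ∀ i j v, Valued.v ((D : Af F) v * (g.1 i j) v) ≤ 1 := fun i j v =>
    hmulle _ _ _ _ (hd2 _ v) (Dvd.dvd.mul_right
      ((Finset.dvd_prod_of_mem (fun j => d (g.1 i j)) (Finset.mem_univ j)).trans
        (Finset.dvd_prod_of_mem (fun i => ∏ j : Fin n ⊕ Fin n, d (g.1 i j))
          (Finset.mem_univ i))) _)
  have hg2 : ∀ i j v, Valued.v ((D : Af F) v * (g⁻¹.1 i j) v) ≤ 1 := fun i j v =>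
    hmulle _ _ _ _ (hd2 _ v) (Dvd.dvd.mul_left
      ((Finset.dvd_prod_of_mem (fun j => d (g⁻¹.1 i j)) (Finset.mem_univ j)).trans
        (Finset.dvd_prod_of_mem (fun i => ∏ j : Fin n ⊕ Fin n, d (g⁻¹.1 i j))
          (Finset.mem_univ i))) _)
  have key : ∀ X : Matrix (Fin n ⊕ Fin n) (Fin n ⊕ Fin n) (Af F), DvdS (N * D ^ 2) X →
      DvdS N (g.1 * X * g⁻¹.1) := by
    intro X hX i j
    rw [Matrix.mul_apply]
    refine DvdN.sum _ fun l _ => ?_
    rw [Matrix.mul_apply, Finset.sum_mul]
    refine DvdN.sum _ fun m _ => ?_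
    intro v
    have h1 := hg1 i m v
    have h2 := hg2 l j v
    have h3 := hX m l v
    change Valued.v (g.1 i m v * X m l v * g⁻¹.1 l j v) ≤ _
    rw [map_mul, map_mul] at *
    have hDN : Valued.v (((N * D ^ 2 : ℕ) : Af F) v) =
        Valued.v ((N : Af F) v) * (Valued.v ((D : Af F) v) * Valued.v ((D : Af F) v)) := by
      rw [natCast_app, natCast_app, natCast_app, Nat.cast_mul, Nat.cast_pow, map_mul, map_pow, sq]
    rw [hDN] at h3
    calc Valued.v (g.1 i m v) * Valued.v (X m l v) * Valued.v (g⁻¹.1 l j v)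
        ≤ Valued.v (g.1 i m v) * (Valued.v ((N : Af F) v) * (Valued.v ((D : Af F) v) *
            Valued.v ((D : Af F) v))) * Valued.v (g⁻¹.1 l j v) := by gcongr
      _ = Valued.v ((N : Af F) v) * (Valued.v ((D : Af F) v) * Valued.v (g.1 i m v)) *
            (Valued.v ((D : Af F) v) * Valued.v (g⁻¹.1 l j v)) := by
          ac_rfl
      _ ≤ Valued.v ((N : Af F) v) * 1 * 1 := by gcongr
      _ = _ := by rw [mul_one, mul_one]
  refine ⟨N * D ^ 2, Nat.mul_pos hN (Nat.pow_pos hD), Dvd.intro _ rfl, fun u hu => ?_⟩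
  rw [mem_US] at hu ⊢
  have e1 : (g * u * g⁻¹).1 - 1 = g.1 * (u.1 - 1) * g⁻¹.1 := by
    have h3 : g.1 * g⁻¹.1 = 1 := by
      have := congrArg Subtype.val (mul_inv_cancel g)
      exact this
    change g.1 * u.1 * g⁻¹.1 - 1 = _
    rw [mul_sub, sub_mul, mul_one, h3]
  rw [e1]
  exact key _ hu

theorem int_of_mem {g : Sp n (Af F)} (hg : g ∈ US F n 1) : DvdS 1 g.1 := by
  have e2 : g.1 = (g.1 - 1) + 1 := by abel
  rw [e2]
  exact (mem_US.1 hg).add dvdS_one_one

theorem ent_le {g : Sp n (Af F)} (hg : g ∈ US F n 1) (v : Pl F) (i j : Fin n ⊕ Fin n) :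
    Valued.v ((g.1 i j) v) ≤ 1 := by
  have h := int_of_mem hg i j v
  rw [Nat.cast_one] at h
  have h1 : Valued.v ((1 : Af F) v) = 1 := map_one _
  rwa [h1] at h

theorem sf : SF := by
  intro F _ _ n v t ht
  obtain ⟨M, hM, -, hMt⟩ := den F n t⁻¹ 1 le_rfl
  have hfin : Finite (𝓞 F ⧸ Ideal.span {(M : 𝓞 F)}) := by
    apply Ideal.finiteQuotientOfFreeOfNeBot
    rw [Ne, Ideal.span_singleton_eq_bot]
    have : M ≠ 0 := Nat.one_le_iff_ne_zero.1 hM
    exact_mod_cast this
  let f : KS F n v → (Fin n ⊕ Fin n → Fin n ⊕ Fin n → 𝓞 F ⧸ Ideal.span {(M : 𝓞 F)}) :=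
    fun k i j => rs v hM ((k.1.1 i j) v) (ent_le (mem_KS.1 k.2).1 v i j)
  have hf : ∀ a b : KS F n v, f a = f b →
      a⁻¹ * b ∈ MulAction.stabilizer (KS F n v) (t : Sp n (Af F) ⧸ KS F n v) := by
    intro a b hab
    have ha := mem_KS.1 a.2
    have hb := mem_KS.1 b.2
    have h1 : DvdS M (b.1.1 - a.1.1) := by
      intro i j w
      change Valued.v ((b.1.1 i j) w - (a.1.1 i j) w) ≤ _
      by_cases hw : w = v
      · subst hw
        exact rs_eq w hM _ _ (ent_le ha.1 w i j) (ent_le hb.1 w i j)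
          (congrFun (congrFun hab i) j)
      · rw [ha.2 w hw i j, hb.2 w hw i j, sub_self, map_zero]
        exact zero_le
    have h2 : (a.1⁻¹ * b.1 : Sp n (Af F)) ∈ US F n M := by
      rw [mem_US]
      have e : (a.1⁻¹ * b.1 : Sp n (Af F)).1 - 1 = (a.1⁻¹ : Sp n (Af F)).1 * (b.1.1 - a.1.1) := by
        have h3 : (a.1⁻¹ : Sp n (Af F)).1 * a.1.1 = 1 := by
          have := congrArg Subtype.val (inv_mul_cancel a.1)
          exact this
        change (a.1⁻¹ : Sp n (Af F)).1 * b.1.1 - 1 = _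
        rw [mul_sub, h3]
      rw [e]
      exact (int_of_mem (Subgroup.inv_mem _ ha.1)).int_mul h1
    rw [MulAction.mem_stabilizer_iff]
    have h3 : (a⁻¹ * b) • ((t : Sp n (Af F)) : Sp n (Af F) ⧸ KS F n v) =
        (((a⁻¹ * b : KS F n v).1 * t : Sp n (Af F)) : Sp n (Af F) ⧸ KS F n v) := rfl
    rw [h3, eq_comm, QuotientGroup.eq, ← mul_assoc, mem_KS]
    constructor
    · have := hMt _ h2
      rw [inv_inv] at this
      exact this
    · rw [atPl_iff] at ht ⊢
      intro w hw
      rw [map_mul, map_mul, map_inv, ht w hw, inv_one, one_mul, mul_one]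
      have h4 : (a⁻¹ * b : KS F n v).1 ∈ KS F n v := (a⁻¹ * b).2
      exact atPl_iff.1 (mem_KS.1 h4).2 w hw
  have hq : Finite (KS F n v ⧸ MulAction.stabilizer (KS F n v)
      (t : Sp n (Af F) ⧸ KS F n v)) := by
    apply Finite.of_injective (fun q => f q.out)
    intro q q' h
    have := hf _ _ h
    rw [← QuotientGroup.out_eq' q, ← QuotientGroup.out_eq' q']
    exact QuotientGroup.eq.2 this
  have := Finite.of_equiv _ (MulAction.orbitEquivQuotientStabilizer (KS F n v)
    (t : Sp n (Af F) ⧸ KS F n v)).symm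
  exact Set.toFinite _

end Q158.SPC

end
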